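import Pool.Agent.H99.SQ.Defs

/-! Orders of `2` modulo squares of primes (module ORD). -/

set_option autoImplicit false

open Finset Pool.Agent.H99.SQ

namespace Pool.Agent.H14.SQ

theorem pow_eq_one_iffB (m k : ℕ) : (2 : ZMod m) ^ k = 1 ↔ m ∣ 2 ^ k - 1 := by
  rw [← ZMod.natCast_eq_zero_iff, Nat.cast_sub Nat.one_le_two_pow, sub_eq_zero]
  push_cast
  rfl

theorem orderOf_dvd_sub_one (p : ℕ) (hp : p.Prime) (h2 : p ≠ 2) :
    orderOf (2 : ZMod p) ∣ p - 1 := by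
  have : Fact p.Prime := ⟨hp⟩
  have h1 : (2 : ZMod p) ^ (p - 1) = 1 := by
    refine ZMod.pow_card_sub_one_eq_one ?_
    intro h
    have h3 : ((2 : ℕ) : ZMod p) = 0 := by exact_mod_cast h
    rw [ZMod.natCast_eq_zero_iff] at h3
    exact h2 ((Nat.prime_dvd_prime_iff_eq hp Nat.prime_two).1 h3)
  exact orderOf_dvd_of_pow_eq_one h1

theorem pf_ORD : T_ORD := by
  rintro p ⟨hp, h2⟩
  have hc : Nat.Coprime p 2 := (Nat.coprime_primes hp Nat.prime_two).2 h2
  have hc2 : Nat.Coprime (p ^ 2) 2 := Nat.Coprime.pow_left 2 hc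
  have h6 : (2 : ZMod (p ^ 2)) ^ (p * (p - 1)) = 1 := by
    have h6 : (2 : ZMod (p ^ 2)) ^ (Nat.totient (p ^ 2)) = 1 := by
      have h7 := ZMod.pow_totient (ZMod.unitOfCoprime 2 hc2.symm)
      have h8 := congrArg (fun u : (ZMod (p ^ 2))ˣ => (u : ZMod (p ^ 2))) h7
      simp only [Units.val_pow_eq_pow_val, ZMod.coe_unitOfCoprime, Units.val_one] at h8
      exact_mod_cast h8
    have h7 : Nat.totient (p ^ 2) = p * (p - 1) := by
      rw [Nat.totient_prime_pow hp (by norm_num)]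
      norm_num
    rw [h7] at h6
    exact h6
  have h5 : mm p ∣ p * (p - 1) := orderOf_dvd_of_pow_eq_one h6
  have hpos : 0 < mm p :=
    Nat.pos_of_dvd_of_pos h5 (Nat.mul_pos hp.pos (Nat.sub_pos_of_lt hp.one_lt))
  have hone : (2 : ZMod (p ^ 2)) ^ mm p = 1 := pow_orderOf_eq_one _
  have hdvd : p ^ 2 ∣ 2 ^ mm p - 1 := (pow_eq_one_iffB _ _).1 hone
  have h3 : orderOf (2 : ZMod p) ∣ mm p := by
    have h4 : p ∣ 2 ^ mm p - 1 := (Dvd.intro_left _ (by ring : p * p = p ^ 2)).trans hdvd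
    rw [← pow_eq_one_iffB] at h4
    exact orderOf_dvd_of_pow_eq_one h4
  refine ⟨hpos, ?_, h5, ?_, h3, ?_⟩
  · have h4 : 2 ≤ 2 ^ mm p := by
      calc 2 = 2 ^ 1 := (pow_one 2).symm
        _ ≤ 2 ^ mm p := Nat.pow_le_pow_right (by norm_num) hpos
    have h7 := Nat.le_of_dvd (by omega) hdvd
    omega
  · intro a b
    have h8 : ((ZMod.unitOfCoprime 2 hc2.symm : (ZMod (p ^ 2))ˣ) : ZMod (p ^ 2)) = 2 := by
      simp
    have h9 : orderOf (ZMod.unitOfCoprime 2 hc2.symm) = mm p := by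
      rw [← orderOf_units, h8]
      rfl
    rw [← h9, ← pow_eq_pow_iff_modEq, Units.ext_iff, Units.val_pow_eq_pow_val,
      Units.val_pow_eq_pow_val, h8]
  · intro hW
    have h8 : p ∣ mm p := by
      by_contra hcon
      have h9 : Nat.Coprime (mm p) p := ((Nat.Prime.coprime_iff_not_dvd hp).2 hcon).symm
      have h10 : mm p ∣ p - 1 := h9.dvd_of_dvd_mul_left h5
      obtain ⟨j, hj⟩ := h10
      apply hW
      rw [← pow_eq_one_iffB, hj, pow_mul, hone, one_pow]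
    have h9 : Nat.Coprime p (orderOf (2 : ZMod p)) := by
      rw [Nat.Prime.coprime_iff_not_dvd hp]
      intro hcon
      have h10 := Nat.le_of_dvd (Nat.sub_pos_of_lt hp.one_lt)
        (hcon.trans (orderOf_dvd_sub_one p hp h2))
      have := hp.one_lt
      omega
    exact Nat.Coprime.mul_dvd_of_dvd_of_dvd h9 h8 h3

end Pool.Agent.H14.SQ
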