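import Pool.Agent.H99.SQ.Defs

/-! `Kill` and divisibility (module SEM). -/

set_option autoImplicit false

open Finset Pool.Agent.H99.SQ

namespace Pool.Agent.H14.SQ

theorem kill_iff (p n l : ℕ) (h : 2 ^ l ≤ n) : Kill p n l ↔ p ^ 2 ∣ n - 2 ^ l := by
  unfold Kill
  rw [← ZMod.natCast_eq_zero_iff, Nat.cast_sub h, sub_eq_zero]
  push_cast
  rfl

theorem pf_SEM : T_SEM := by
  refine ⟨kill_iff, ?_, ?_, ?_⟩
  · intro p n n' l h
    unfold Kill
    rw [(ZMod.natCast_eq_natCast_iff n n' (p ^ 2)).2 h]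
  · intro n l hn hl hlt hR
    have h1 : ¬ Squarefree (n - 2 ^ l) := fun hs => hR ⟨hlt, hs⟩
    rw [Nat.squarefree_iff_prime_squarefree] at h1
    push Not at h1
    obtain ⟨p, hp, hpd⟩ := h1
    have hodd : Odd (n - 2 ^ l) := by
      have h2 : Even (2 ^ l) := (Nat.even_pow.2 ⟨even_two, by omega⟩)
      exact Nat.Odd.sub_even hlt.le hn h2
    have hp2 : p ≠ 2 := by
      rintro rfl
      have h3 : 2 ∣ n - 2 ^ l := (Dvd.intro 2 rfl).trans hpd
      rw [← Nat.not_even_iff_odd] at hodd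
      exact hodd (even_iff_two_dvd.2 h3)
    refine ⟨p, ⟨hp, hp2⟩, ?_, ?_⟩
    · rw [sq]
      exact (Nat.le_of_dvd (Nat.sub_pos_of_lt hlt) hpd).trans (Nat.sub_le _ _)
    · rw [kill_iff p n l hlt.le, sq]
      exact hpd
  · rintro n l p ⟨hp, hp2⟩ hk ⟨hlt, hs⟩
    rw [kill_iff p n l hlt.le, sq] at hk
    exact (Nat.squarefree_iff_prime_squarefree.1 hs) p hp hk

end Pool.Agent.H14.SQ
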